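import Pool.Agent.MP_1fd3e3_co.Main

set_option autoImplicit false

universe u v

/-- For every infinite index set `Q` the collection `H_Q` is closed under unions; in fact it consists
of exactly the sets of positive integers containing `1`. -/
theorem Pool.Agent.Results.MP_1fd3e3_co.UnionClosedHQ.result :
    ∀ (Q : Type v) [Infinite Q],
      (∀ X ∈ Pool.Agent.MP_1fd3e3_co.HQ.{u, v} Q, ∀ Y ∈ Pool.Agent.MP_1fd3e3_co.HQ.{u, v} Q,
        X ∪ Y ∈ Pool.Agent.MP_1fd3e3_co.HQ.{u, v} Q) ∧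
      (∀ X : Set ℕ+, X ∈ Pool.Agent.MP_1fd3e3_co.HQ.{u, v} Q ↔ 1 ∈ X) := by
  intro Q _
  refine ⟨?_, Pool.Agent.MP_1fd3e3_co.mem_HQ_iff Q⟩
  intro X hX Y _
  rw [Pool.Agent.MP_1fd3e3_co.mem_HQ_iff] at hX ⊢
  exact Or.inl hX
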