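import Pool.Agent.MP_1fd3e3_co.Main

set_option autoImplicit false

universe u

/-- The collection `H^*_N` is closed under unions; in fact it consists of exactly the sets of
positive integers containing `1`. -/
theorem Pool.Agent.Results.MP_1fd3e3_co.UnionClosedHStar.result :
    (∀ X ∈ Pool.Agent.MP_1fd3e3_co.HStar.{u}, ∀ Y ∈ Pool.Agent.MP_1fd3e3_co.HStar.{u},
      X ∪ Y ∈ Pool.Agent.MP_1fd3e3_co.HStar.{u}) ∧
    (∀ X : Set ℕ+, X ∈ Pool.Agent.MP_1fd3e3_co.HStar.{u} ↔ 1 ∈ X) := by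
  refine ⟨?_, Pool.Agent.MP_1fd3e3_co.mem_HStar_iff⟩
  intro X hX Y _
  rw [Pool.Agent.MP_1fd3e3_co.mem_HStar_iff] at hX ⊢
  exact Or.inl hX
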